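import Pool.Agent.W801.OU.T_TRIc
import Pool.Agent.H906R2.Arm.Box
import Pool.Agent.H160R2.MU.Defs

/-! # From the band to the infinite dislocated cylinder -/

set_option autoImplicit false

namespace Pool.Agent.W801.OU
open H974 H906.Cyl
open MeasureTheory
open Pool.Agent.H160R2.MU (PC)
open Pool.Agent.W801.OL
open Pool.Agent.W808.HB (Alt coinsH HL crow)

namespace TONI
open TISO

/-- the coins of both halves -/
def vl (ω : (ℤ × ℕ → Bool) × (ℤ × ℕ → Bool)) (x : (ℤ × ℕ) × Bool) : Bool :=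
  if x.2 = true then ω.2 x.1 else ω.1 x.1

theorem ber (p : unitInterval) (hp : (p : ℝ) = 1 / 2) (b : Bool) :
    ((ProbabilityTheory.bernoulliMeasure true false p : Measure Bool) {b}).toReal = 1 / 2 := by
  rw [← measureReal_def]
  cases b
  · rw [ProbabilityTheory.bernoulliMeasure_real_apply_of_notMem_of_mem p
      (measurableSet_singleton _) (by simp) (by simp), hp]
    norm_num
  · rw [ProbabilityTheory.bernoulliMeasure_real_apply_of_mem_of_notMem p
      (measurableSet_singleton _) (by simp) (by simp), hp]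

instance prC : IsProbabilityMeasure coinsH := by
  unfold coinsH
  infer_instance

theorem prob1 {J : Type} [Fintype J] (c : J → ℤ × ℕ) (hc : Function.Injective c) (v : J → Bool) :
    coinsH.real {ω | ∀ x, ω (c x) = v x} = (1 / 2 : ℝ) ^ Fintype.card J := by
  classical
  have h1 : {ω : ℤ × ℕ → Bool | ∀ x, ω (c x) = v x} =
      Set.pi ((Finset.univ.map ⟨c, hc⟩ : Finset (ℤ × ℕ)) : Set (ℤ × ℕ))
        (fun i => {Function.extend c v (fun _ => true) i}) := by
    ext ω
    simp only [Set.mem_ofPred_eq, Set.mem_pi, Finset.mem_coe, Finset.mem_map, Finset.mem_univ,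
      true_and, Set.mem_singleton_iff, Function.Embedding.coeFn_mk]
    constructor
    · rintro h _ ⟨x, rfl⟩
      rw [h x, hc.extend_apply]
    · intro h x
      rw [h _ ⟨x, rfl⟩, hc.extend_apply]
  rw [h1, measureReal_def]
  unfold coinsH
  rw [Measure.infinitePi_pi _ (fun i _ => measurableSet_singleton _), ENNReal.toReal_prod,
    Finset.prod_congr rfl fun i _ => ber _ rfl _, Finset.prod_const, Finset.card_map,
    Finset.card_univ]

theorem prob2 {J : Type} [Fintype J] (c : J → (ℤ × ℕ) × Bool) (hc : Function.Injective c)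
    (v : J → Bool) :
    (coinsH.prod coinsH).real {ω | ∀ x, vl ω (c x) = v x} = (1 / 2 : ℝ) ^ Fintype.card J := by
  classical
  have h1 : {ω : (ℤ × ℕ → Bool) × (ℤ × ℕ → Bool) | ∀ x, vl ω (c x) = v x} =
      {ω : ℤ × ℕ → Bool | ∀ x : {x : J // ¬ (c x).2 = true}, ω (c x.1).1 = v x.1} ×ˢ
      {ω : ℤ × ℕ → Bool | ∀ x : {x : J // (c x).2 = true}, ω (c x.1).1 = v x.1} := by
    ext ω
    simp only [Set.mem_ofPred_eq, Set.mem_prod, Subtype.forall]
    constructor
    · intro h
      refine ⟨fun x hx => ?_, fun x hx => ?_⟩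
      · have := h x
        unfold vl at this
        rwa [if_neg hx] at this
      · have := h x
        unfold vl at this
        rwa [if_pos hx] at this
    · rintro ⟨h2, h3⟩ x
      unfold vl
      split_ifs with hx
      · exact h3 x hx
      · exact h2 x hx
  rw [h1, measureReal_prod_prod]
  rw [prob1 (fun x : {x : J // ¬ (c x).2 = true} => (c x.1).1) (by
      rintro ⟨x, hx⟩ ⟨y, hy⟩ h
      apply Subtype.ext
      apply hc
      refine Prod.ext h ?_
      simp only [Bool.not_eq_true] at hx hy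
      rw [hx, hy]) (fun x => v x.1),
    prob1 (fun x : {x : J // (c x).2 = true} => (c x.1).1) (by
      rintro ⟨x, hx⟩ ⟨y, hy⟩ h
      apply Subtype.ext
      apply hc
      refine Prod.ext h ?_
      rw [hx, hy]) (fun x => v x.1), ← pow_add]
  congr 1
  rw [add_comm]
  have := Fintype.card_subtype_compl (fun x : J => (c x).2 = true)
  have h2 := Fintype.card_subtype_le (fun x : J => (c x).2 = true)
  omega

open Classical in
theorem split2 {J : Type} [Fintype J] (c : J → (ℤ × ℕ) × Bool) (hc : Function.Injective c)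
    (P : (J → Bool) → Prop) :
    (coinsH.prod coinsH).real {ω | P (fun x => vl ω (c x))} =
      ∑ v : J → Bool, (if P v then (1 / 2 : ℝ) ^ Fintype.card J else 0) := by
  have h1 : {ω : (ℤ × ℕ → Bool) × (ℤ × ℕ → Bool) | P (fun x => vl ω (c x))} =
      ⋃ v ∈ (Finset.univ.filter fun v : J → Bool => P v),
        {ω | ∀ x, vl ω (c x) = v x} := by
    ext ω
    simp only [Set.mem_ofPred_eq, Set.mem_iUnion, Finset.mem_filter, Finset.mem_univ, true_and,
      exists_prop]
    constructor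
    · intro h
      exact ⟨_, h, fun x => rfl⟩
    · rintro ⟨x, hx, h⟩
      rw [show (fun x => vl ω (c x)) = x from funext h]
      exact hx
  have hm : ∀ v : J → Bool, MeasurableSet {ω | ∀ x, vl ω (c x) = v x} := by
    intro v
    have : {ω | ∀ y, vl ω (c y) = v y} = ⋂ y, {ω | vl ω (c y) = v y} := by
      ext ω
      simp
    rw [this]
    refine MeasurableSet.iInter fun y => ?_
    unfold vl
    split_ifs
    · have hmm : Measurable (fun ω : (ℤ × ℕ → Bool) × (ℤ × ℕ → Bool) => ω.2 (c y).1) :=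
        (measurable_pi_apply (c y).1).comp measurable_snd
      exact hmm (measurableSet_singleton (v y))
    · have hmm : Measurable (fun ω : (ℤ × ℕ → Bool) × (ℤ × ℕ → Bool) => ω.1 (c y).1) :=
        (measurable_pi_apply (c y).1).comp measurable_fst
      exact hmm (measurableSet_singleton (v y))
  rw [h1, measureReal_biUnion_finset]
  · rw [Finset.sum_congr rfl fun x _ => prob2 c hc x, Finset.sum_filter]
  · intro x _ y _ hxy
    rw [Function.onFun, Set.disjoint_left]
    intro ω h3 h4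
    exact hxy (funext fun z => (h3 z).symm.trans (h4 z))
  · intro x _
    exact hm x

/-! ## the coins of the edges -/

/-- the coin of an edge -/
def cn (n : ℕ) (e : Edg) : (ℤ × ℕ) × Bool :=
  if 0 ≤ dco e then (((e.1 + e.2.1 + 1) % ((2 * n : ℕ) : ℤ), (dco e).toNat), false)
  else (((e.1 + e.2.1) % ((2 * n : ℕ) : ℤ), (-dco e - 1).toNat), true)

/-- the value for which the edge is open -/
def bt (e : Edg) : Bool := decide (dco e < 0) == e.2.2

/-- the configuration given by the coins -/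
def Go (n : ℕ) (ω : (ℤ × ℕ → Bool) × (ℤ × ℕ → Bool)) : Set Edg := {e | vl ω (cn n e) = bt e}

theorem emod_inj {m a b : ℤ} (ha : 0 ≤ a) (ha' : a < m) (hb : 0 ≤ b) (hb' : b < m) (k : ℤ)
    (h : (a + k) % m = (b + k) % m) : a = b := by
  have h2 : m ∣ a - b := by
    have := Int.ModEq.dvd (show (b + k) ≡ (a + k) [ZMOD m] from h.symm)
    have e1 : a + k - (b + k) = a - b := by ring
    rwa [e1] at this
  have := Int.eq_zero_of_abs_lt_dvd h2 (by rw [abs_lt]; constructor <;> linarith)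
  linarith

theorem cn_inj (n M : ℕ) : Function.Injective (fun x : {e // e ∈ CE n M} => cn n x.1) := by
  rintro ⟨e, he⟩ ⟨e', he'⟩ h
  rw [mem_CE] at he he'
  obtain ⟨⟨h5, h6⟩, -⟩ := he
  obtain ⟨⟨h7, h8⟩, -⟩ := he'
  have h3 : dco e = dco e' ∧ e.1 + e.2.1 = e'.1 + e'.2.1 := by
    simp only [cn] at h
    split_ifs at h with h1 h2 h2
    · simp only [Prod.mk.injEq, and_true] at h
      refine ⟨by omega, ?_⟩
      exact emod_inj h5 (by push_cast; exact h6) h7 (by push_cast; exact h8) 1 h.1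
    · simp at h
    · simp at h
    · simp only [Prod.mk.injEq, and_true] at h
      refine ⟨by omega, ?_⟩
      refine emod_inj h5 (m := ((2 * n : ℕ) : ℤ)) (by push_cast; exact h6) h7
        (by push_cast; exact h8) 0 ?_
      rw [add_zero, add_zero]
      exact h.1
  apply Subtype.ext
  show e = e'
  rw [← edz_eq e, ← edz_eq e', h3.1, h3.2]

theorem red_col (n : ℕ) (e : Edg) (k : ℤ) : ((red n e).1 + (red n e).2.1 + k) % ((2 * n : ℕ) : ℤ) =
    (e.1 + e.2.1 + k) % ((2 * n : ℕ) : ℤ) := by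
  have : (red n e).1 + (red n e).2.1 + k =
      (e.1 + e.2.1 + k) + ((2 * n : ℕ) : ℤ) * (-((e.1 + e.2.1) / (2 * n))) := by
    show e.1 - n * ((e.1 + e.2.1) / (2 * n)) + (e.2.1 - n * ((e.1 + e.2.1) / (2 * n))) + k = _
    push_cast
    ring
  rw [this, Int.add_mul_emod_self_left]

theorem Go_red {n : ℕ} {ω : (ℤ × ℕ → Bool) × (ℤ × ℕ → Bool)} (e : Edg) :
    red n e ∈ Go n ω ↔ e ∈ Go n ω := by
  have h1 : cn n (red n e) = cn n e := by
    unfold cn
    have h0 := red_col n e 0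
    rw [add_zero, add_zero] at h0
    rw [dco_red, red_col, h0]
  have h2 : bt (red n e) = bt e := by
    unfold bt
    rw [dco_red]
    rfl
  show vl ω (cn n (red n e)) = bt (red n e) ↔ vl ω (cn n e) = bt e
  rw [h1, h2]

open Classical in
/-- the open edges of the band -/
noncomputable def Fo (n M : ℕ) (ω : (ℤ × ℕ → Bool) × (ℤ × ℕ → Bool)) : Finset Edg :=
  (CE n M).filter (fun e => e ∈ Go n ω)

theorem mem_Fo {n M : ℕ} {ω : (ℤ × ℕ → Bool) × (ℤ × ℕ → Bool)} {e : Edg} :
    e ∈ Fo n M ω ↔ e ∈ CE n M ∧ e ∈ Go n ω := by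
  classical
  unfold Fo
  rw [Finset.mem_filter]

theorem per_Fo {n M : ℕ} (hn : 0 < n) {ω : (ℤ × ℕ → Bool) × (ℤ × ℕ → Bool)} {e : Edg}
    (h0 : -(M : ℤ) ≤ dco e) (h1 : dco e < M) : e ∈ per n (Fo n M ω) ↔ e ∈ Go n ω := by
  show red n e ∈ Fo n M ω ↔ _
  rw [mem_Fo, Go_red]
  exact ⟨fun h => h.2, fun h => ⟨red_mem hn h0 h1, h⟩⟩

theorem cmp_Go {n : ℕ} (hn : 1 ≤ n) (ω : (ℤ × ℕ → Bool) × (ℤ × ℕ → Bool)) :
    Cmp n (Go n ω) ω.1 ω.2 := by
  have hpar : ∀ s d : ℤ, (edz s d).2.2 = decide ((s + d) % 2 = 0) := by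
    intro s d
    unfold edz
    split_ifs with h <;> simp [h]
  constructor
  · intro j t
    unfold Ri Go bt
    rw [Set.mem_ofPred_eq, dco_edz, hpar]
    have h1 : cn n (edz (j - 1) t) = ((j % ((2 * n : ℕ) : ℤ), t), false) := by
      unfold cn
      rw [dco_edz, edz_sum, if_pos (by omega)]
      simp
    rw [h1]
    have h2 : decide ((t : ℤ) < 0) = false := by simp
    rw [h2]
    unfold vl
    simp only [Bool.false_eq_true, if_false]
    by_cases hp : (j - 1 + (t : ℤ)) % 2 = 0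
    · simp [hp]
    · simp [hp]
  · intro s k t h0 h1
    unfold Ri Go bt
    rw [Set.mem_ofPred_eq, dco_edz, hpar]
    have h3 : (2 * (n : ℤ) * s + k) % ((2 * n : ℕ) : ℤ) = k := by
      push_cast
      rw [show 2 * (n : ℤ) * s + k = k + (2 * n) * s by ring, Int.add_mul_emod_self_left]
      exact Int.emod_eq_of_lt h0 (by omega)
    have h1 : cn n (edz (2 * n * s + k) (-t - 1)) = ((k, t), true) := by
      unfold cn
      rw [dco_edz, edz_sum, if_neg (by omega), h3]
      have : (-(-(t : ℤ) - 1) - 1).toNat = t := by omega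
      rw [this]
    rw [h1]
    have h2 : decide (-(t : ℤ) - 1 < 0) = true := by simp; omega
    rw [h2]
    unfold vl
    simp only [if_true]
    by_cases hp : (2 * (n : ℤ) * s + k + (-t - 1)) % 2 = 0
    · simp [hp]
    · simp [hp]

/-! ## probability -/

/-- the configuration of a family of coins -/
def Fv (n M : ℕ) (v : {e // e ∈ CE n M} → Bool) : Finset Edg :=
  (Finset.univ.filter (fun x : {e // e ∈ CE n M} => v x = bt x.1)).map
    (Function.Embedding.subtype _)

theorem mem_Fv {n M : ℕ} {v : {e // e ∈ CE n M} → Bool} {e : Edg} :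
    e ∈ Fv n M v ↔ ∃ h : e ∈ CE n M, v ⟨e, h⟩ = bt e := by
  unfold Fv
  simp only [Finset.mem_map, Finset.mem_filter, Finset.mem_univ, true_and,
    Function.Embedding.coe_subtype, Subtype.exists, exists_and_right, exists_eq_right]

theorem Fv_Fo (n M : ℕ) (ω : (ℤ × ℕ → Bool) × (ℤ × ℕ → Bool)) :
    Fv n M (fun x => vl ω (cn n x.1)) = Fo n M ω := by
  ext e
  rw [mem_Fv, mem_Fo]
  constructor
  · rintro ⟨h1, h2⟩
    exact ⟨h1, h2⟩
  · rintro ⟨h1, h2⟩
    exact ⟨h1, h2⟩

theorem prob (n M : ℕ) (A : Finset Edg → Prop) :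
    (coinsH.prod coinsH).real {ω | A (Fo n M ω)} = PC n M A := by
  classical
  have h1 := split2 (fun x : {e // e ∈ CE n M} => cn n x.1) (cn_inj n M) (fun v => A (Fv n M v))
  have h2 : {ω : (ℤ × ℕ → Bool) × (ℤ × ℕ → Bool) | A (Fv n M fun x => vl ω (cn n x.1))} =
      {ω | A (Fo n M ω)} := by
    ext ω
    show A (Fv n M fun x => vl ω (cn n x.1)) ↔ A (Fo n M ω)
    rw [Fv_Fo]
  rw [h2] at h1
  rw [h1]
  unfold PC
  rw [H906.Cyl.Pr_half, Finset.mul_sum]
  refine Finset.sum_bij (fun v _ => Fv n M v) ?_ ?_ ?_ ?_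
  · intro v _
    rw [Finset.mem_powerset]
    intro e he
    exact (mem_Fv.1 he).1
  · intro v _ v' _ h
    funext x
    have h3 : x.1 ∈ Fv n M v ↔ x.1 ∈ Fv n M v' := by rw [h]
    rw [mem_Fv, mem_Fv] at h3
    have h4 : v x = bt x.1 ↔ v' x = bt x.1 :=
      ⟨fun h5 => (h3.1 ⟨x.2, h5⟩).2, fun h5 => (h3.2 ⟨x.2, h5⟩).2⟩
    revert h4
    cases v x <;> cases v' x <;> cases bt x.1 <;> simp
  · intro F hF
    refine ⟨fun x => if x.1 ∈ F then bt x.1 else !bt x.1, by simp, ?_⟩
    ext e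
    rw [mem_Fv]
    constructor
    · rintro ⟨h3, h4⟩
      by_contra h5
      rw [if_neg h5] at h4
      revert h4
      cases bt e <;> simp
    · intro h3
      exact ⟨Finset.mem_powerset.1 hF h3, by rw [if_pos h3]⟩
  · intro v _
    rw [Fintype.card_coe]
    by_cases h3 : A (Fv n M v)
    · rw [if_pos h3, ind_of h3, mul_one]
    · rw [if_neg h3, ind_not_of h3, mul_zero]

/-! ## the deterministic part -/

theorem nrm_snd (Z : Set ℤ) (d j t : ℤ) : (nrm Z d j t).2 = t := by
  unfold nrm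
  split_ifs <;> rfl

/-- a link at height less than `M` is in the band -/
theorem link_iff {n M : ℕ} (hn : 0 < n) (Z : Set ℤ) {ω : (ℤ × ℕ → Bool) × (ℤ × ℕ → Bool)}
    {x y : ℤ × ℤ} (h : |x.2| < M ∨ |y.2| < M) :
    LZ Z Set.univ (Go n ω) x y ↔ LZ Z Set.univ (per n (Fo n M ω)) x y := by
  have key : ∀ e : Edg, (∀ c, Dg Z c e x y → -(M : ℤ) ≤ dco e ∧ dco e < M) := by
    intro e c hD
    have h2 : (x.2 = dco e ∨ x.2 = dco e + 1) ∧ (y.2 = dco e ∨ y.2 = dco e + 1) := by
      rcases hD with h | h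
      · rw [nrm_snd, nrm_snd]; simp
      · rw [nrm_snd, nrm_snd]; simp
    rw [abs_lt, abs_lt] at h
    omega
  unfold LZ
  refine exists_congr fun e => and_congr_right fun _ => and_congr_right fun _ => ?_
  constructor
  · rintro (⟨h1, h2⟩ | ⟨h1, h2⟩)
    · exact Or.inl ⟨(per_Fo hn (key e _ h2).1 (key e _ h2).2).2 h1, h2⟩
    · exact Or.inr ⟨fun h => h1 ((per_Fo hn (key e _ h2).1 (key e _ h2).2).1 h), h2⟩
  · rintro (⟨h1, h2⟩ | ⟨h1, h2⟩)
    · exact Or.inl ⟨(per_Fo hn (key e _ h2).1 (key e _ h2).2).1 h1, h2⟩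
    · exact Or.inr ⟨fun h => h1 ((per_Fo hn (key e _ h2).1 (key e _ h2).2).2 h), h2⟩

/-- the cluster is the same -/
theorem clu {n M : ℕ} (hn : 0 < n) {ω : (ℤ × ℕ → Bool) × (ℤ × ℕ → Bool)} {c : ℕ}
    (hS : Shz n M (per n (Fo n M ω)) c) (x : ℤ × ℤ) :
    RC n (Go n ω) (scz n 0 c) x ↔ RC n (per n (Fo n M ω)) (scz n 0 c) x := by
  constructor
  · have key : ∀ {x y : ℤ × ℤ}, RC n (Go n ω) x y →
        (RC n (per n (Fo n M ω)) (scz n 0 c) x ↔ RC n (per n (Fo n M ω)) (scz n 0 c) y) := by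
      intro x y h
      induction h with
      | rel x y h =>
        constructor
        · intro h1
          exact h1.trans _ _ _ (Relation.EqvGen.rel _ _ ((link_iff hn _ (Or.inl (hS _ h1))).1 h))
        · intro h1
          exact h1.trans _ _ _ ((Relation.EqvGen.rel _ _
            ((link_iff hn _ (Or.inr (hS _ h1))).1 h)).symm _ _)
      | refl x => exact Iff.rfl
      | symm x y _ ih => exact ih.symm
      | trans x y z _ _ ih1 ih2 => exact ih1.trans ih2
    intro h
    exact (key h).1 (Relation.EqvGen.refl _)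
  · have key : ∀ {x y : ℤ × ℤ}, RC n (per n (Fo n M ω)) x y →
        ((RC n (per n (Fo n M ω)) (scz n 0 c) x ∧ RC n (Go n ω) (scz n 0 c) x) ↔
         (RC n (per n (Fo n M ω)) (scz n 0 c) y ∧ RC n (Go n ω) (scz n 0 c) y)) := by
      intro x y h
      induction h with
      | rel x y h =>
        constructor
        · rintro ⟨h1, h2⟩
          exact ⟨h1.trans _ _ _ (Relation.EqvGen.rel _ _ h), h2.trans _ _ _
            (Relation.EqvGen.rel _ _ ((link_iff hn _ (Or.inl (hS _ h1))).2 h))⟩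
        · rintro ⟨h1, h2⟩
          exact ⟨h1.trans _ _ _ ((Relation.EqvGen.rel _ _ h).symm _ _), h2.trans _ _ _
            ((Relation.EqvGen.rel _ _ ((link_iff hn _ (Or.inr (hS _ h1))).2 h)).symm _ _)⟩
      | refl x => exact Iff.rfl
      | symm x y _ ih => exact ih.symm
      | trans x y z _ _ ih1 ih2 => exact ih1.trans ih2
    intro h
    exact ((key h).1 ⟨Relation.EqvGen.refl _, Relation.EqvGen.refl _⟩).2

theorem det {n M : ℕ} (hn : 2 ≤ n) {ω : (ℤ × ℕ → Bool) × (ℤ × ℕ → Bool)} (t t' : ℕ)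
    (hA : Alt (2 * n) ω.1 t) (hA' : Alt (2 * n - 1) ω.2 t') (h : One n M (per n (Fo n M ω))) :
    LegEv2 2 1 (2 * n - 2) ω.1 ω.2 := by
  have H := cmp_Go (by omega : 1 ≤ n) ω
  have hn0 : 0 < n := by omega
  rw [← G3_iff (by omega) H]
  rcases tri hn H t t' hA hA' with h1 | h1
  · exact h1
  · exfalso
    obtain ⟨c, hc, ⟨s, hs, d, hd, h2⟩, h3, h4⟩ := h
    have hout : Outw n (Go n ω) c := ⟨s, hs, d, hd, (clu hn0 h4 _).2 h2⟩
    have h3' : ∀ d : ℕ, d < 3 → d ≠ c → ¬ RC n (Go n ω) (scz n 0 c) (scz n 0 d) :=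
      fun d hd hdc h => h3 d hd hdc ((clu hn0 h4 _).1 h)
    obtain ⟨t, a, b, ht, ha, hb, hta, htb, hab, k1, k2, k3, k4⟩ := h1
    have hct : c ≠ t := fun h => k3 (h ▸ hout)
    have hcab : c = a ∨ c = b := by omega
    rcases hcab with rfl | rfl
    · exact h3' b hb (Ne.symm hab) k1
    · exact h3' a ha hab (k1.symm _ _)

end TONI

open TONI in
theorem t_ONI : S_ONI := by
  intro n M hn
  rw [← prob n M (fun F => One n M (per n F))]
  refine le_of_forall_pos_le_add fun ε hε => ?_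
  obtain ⟨K1, hK1⟩ := Pool.Agent.W808.HB.t_X6 (2 * n - 1) (ε / 2) (half_pos hε)
  obtain ⟨K2, hK2⟩ := Pool.Agent.W808.HB.t_X6 (2 * n - 2) (ε / 2) (half_pos hε)
  rw [show 2 * n - 1 + 1 = 2 * n by omega] at hK1
  rw [show 2 * n - 2 + 1 = 2 * n - 1 by omega] at hK2
  have hsub : {ω : (ℤ × ℕ → Bool) × (ℤ × ℕ → Bool) | One n M (per n (Fo n M ω))} ⊆
      {ω | LegEv2 2 1 (2 * n - 2) ω.1 ω.2} ∪ ({ω | ¬ ∃ t < K1, Alt (2 * n) ω.1 t} ∪
        {ω | ¬ ∃ t < K2, Alt (2 * n - 1) ω.2 t}) := by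
    intro ω hP
    by_cases hb : ∃ t < K1, Alt (2 * n) ω.1 t
    · by_cases hb2 : ∃ t < K2, Alt (2 * n - 1) ω.2 t
      · left
        obtain ⟨t, -, hA⟩ := hb
        obtain ⟨t', -, hA'⟩ := hb2
        exact det hn t t' hA hA' hP
      · exact Or.inr (Or.inr hb2)
    · exact Or.inr (Or.inl hb)
  have h1 := (measureReal_mono (μ := coinsH.prod coinsH) hsub).trans
    ((measureReal_union_le _ _).trans (add_le_add_right (measureReal_union_le _ _) _))
  have h2 := TY3.fst_real coinsH coinsH (fun ω => ¬ ∃ t < K1, Alt (2 * n) ω t)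
  have h3 := TY3.snd_real coinsH coinsH (fun ω => ¬ ∃ t < K2, Alt (2 * n - 1) ω t)
  rw [h2, h3] at h1
  linarith

/-- **the law of the one-cluster event** -/
theorem t_ONE : S_ONE := by
  obtain ⟨c, C, hc, hC, h⟩ := a_Y4.2 2 1 (by decide)
  refine ⟨C, hC, fun n M hn => (t_ONI n M hn).trans ?_⟩
  refine (h (2 * n - 2) (by omega)).2.trans ?_
  refine mul_le_mul_of_nonneg_left ?_ hC.le
  have e' : -(((((2 : ℕ) : ℝ) + ((1 : ℕ) : ℝ)) ^ 2 - 1) / 12) = -(2 / 3 : ℝ) := by norm_num
  rw [e']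
  refine Real.rpow_le_rpow_of_nonpos (by positivity) ?_ (by norm_num)
  exact_mod_cast (by omega : n ≤ 2 * n - 2)

end Pool.Agent.W801.OU
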