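import Pool.Agent.W801.OU.T_TRI2

/-! # The two descriptions of the dislocated cylinder -/

set_option autoImplicit false

namespace Pool.Agent.W801.OU
open H974 H906.Cyl
open Pool.Agent.W801.OL
open Pool.Agent.W808.HB (Alt coinsH HL crow)

namespace TISO

/-- the square with diagonal coordinates `s`, `d` has the diagonal `(s, d) - (s + 1, d + 1)` -/
def Ri (G : Set Edg) (s d : ℤ) : Prop := (edz s d ∈ G ↔ (s + d) % 2 = 0)

theorem edz_sum (s d : ℤ) : (edz s d).1 + (edz s d).2.1 = s := by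
  unfold edz; split_ifs <;> simp only <;> omega

theorem dco_edz (s d : ℤ) : dco (edz s d) = d := by
  unfold edz dco; split_ifs with h1 h2 h2 <;> simp at h2 ⊢ <;> omega

theorem edz_eq (e : Edg) : edz (e.1 + e.2.1) (dco e) = e := by
  obtain ⟨x, y, b⟩ := e
  unfold edz dco
  cases b
  · simp only [Bool.false_eq_true, if_false]
    rw [if_neg (by omega)]
    simp only [Prod.mk.injEq, and_true]
    omega
  · simp only [if_true]
    rw [if_pos (by omega)]
    simp only [Prod.mk.injEq, and_true]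
    omega

theorem LZ_iff (Z : Set ℤ) (G : Set Edg) (x y : ℤ × ℤ) : LZ Z Set.univ G x y ↔
    ∃ s d : ℤ, ¬ (d < 0 ∧ s + 1 ∈ Z) ∧
      ((Ri G s d ∧ x = nrm Z d s d ∧ y = nrm Z d (s + 1) (d + 1)) ∨
       (¬ Ri G s d ∧ x = nrm Z d s (d + 1) ∧ y = nrm Z d (s + 1) d)) := by
  unfold LZ
  constructor
  · rintro ⟨e, -, h1, h2⟩
    refine ⟨e.1 + e.2.1, dco e, h1, ?_⟩
    unfold Ri
    rw [edz_eq]
    rcases h2 with ⟨h3, h4⟩ | ⟨h3, h4⟩
    · rcases h4 with h5 | h5
      · exact Or.inl ⟨by simp [h3, h5], rfl, rfl⟩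
      · refine Or.inr ⟨?_, rfl, rfl⟩
        intro h6
        have := h6.1 h3
        omega
    · rcases h4 with h5 | h5
      · refine Or.inl ⟨?_, rfl, rfl⟩
        constructor
        · intro h6; exact absurd h6 h3
        · intro h6; omega
      · refine Or.inr ⟨?_, rfl, rfl⟩
        intro h6
        exact h3 (h6.2 (by omega))
  · rintro ⟨s, d, h1, h2⟩
    have hm := Int.emod_two_eq_zero_or_one (s + d)
    refine ⟨edz s d, trivial, ?_, ?_⟩
    · unfold zp
      simp only [Set.mem_setOf_eq]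
      rw [edz_sum, dco_edz]
      exact h1
    · by_cases h3 : edz s d ∈ G
      · left
        refine ⟨h3, ?_⟩
        rcases h2 with ⟨h4, rfl, rfl⟩ | ⟨h4, rfl, rfl⟩
        · have h5 := h4.1 h3
          have := Dg.rise (Z := Z) (c := 0) (e := edz s d) (by rw [edz_sum, dco_edz]; exact h5)
          rwa [edz_sum, dco_edz] at this
        · have h5 : ¬ (s + d) % 2 = 0 := fun h => h4 (by simp [Ri, h3, h])
          have := Dg.fall (Z := Z) (c := 0) (e := edz s d) (by rw [edz_sum, dco_edz]; omega)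
          rwa [edz_sum, dco_edz] at this
      · right
        refine ⟨h3, ?_⟩
        rcases h2 with ⟨h4, rfl, rfl⟩ | ⟨h4, rfl, rfl⟩
        · have h5 : ¬ (s + d) % 2 = 0 := fun h => h3 (h4.2 h)
          have := Dg.rise (Z := Z) (c := 1) (e := edz s d) (by rw [edz_sum, dco_edz]; omega)
          rwa [edz_sum, dco_edz] at this
        · have h5 : (s + d) % 2 = 0 := by
            by_contra h
            exact h4 (by simp [Ri, h3, h])
          have := Dg.fall (Z := Z) (c := 1) (e := edz s d) (by rw [edz_sum, dco_edz]; omega)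
          rwa [edz_sum, dco_edz] at this

/-- the configuration `G` and the coins describe the same diagonals -/
structure Cmp (n : ℕ) (G : Set Edg) (ω ω' : ℤ × ℕ → Bool) : Prop where
  lo : ∀ (j : ℤ) (t : ℕ), (ω (j % (2 * n : ℕ), t) = true ↔ ¬ Ri G (j - 1) t)
  up : ∀ (s k : ℤ) (t : ℕ), 0 ≤ k → k < 2 * n - 1 → (ω' (k, t) = true ↔ Ri G (2 * n * s + k) (-t - 1))

/-- from the coins to the chart -/
def phi (n : ℕ) (x : (ℤ × ℕ) × Bool) : ℤ × ℤ :=
  if x.2 = true then (x.1.1 + (x.1.1 - 1) / (2 * n - 1), -x.1.2) else (x.1.1 - 1, x.1.2)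

/-- from the chart to the coins -/
def psi (n : ℕ) (x : ℤ × ℤ) : (ℤ × ℕ) × Bool :=
  if 0 ≤ x.2 then ((x.1 + 1, x.2.toNat), false) else ((x.1 - x.1 / (2 * n), (-x.2).toNat), true)

variable {n : ℕ} {G : Set Edg} {ω ω' : ℤ × ℕ → Bool}

theorem mem_Zn {n : ℕ} (s k : ℤ) (h0 : 0 ≤ k) (h1 : k < 2 * n) : 2 * n * s + k ∈ Zn n ↔ k = 0 := by
  unfold Zn
  simp only [Set.mem_setOf_eq]
  push_cast
  have : (2 * (n : ℤ) * s + k) % (2 * n) = k := by
    rw [show 2 * (n : ℤ) * s + k = k + (2 * n) * s by ring, Int.add_mul_emod_self_left]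
    exact Int.emod_eq_of_lt h0 h1
  rw [this]

/-- the point of the upper half -/
theorem upcol (hn : 1 ≤ n) (s k : ℤ) (h0 : 1 ≤ k) (h1 : k < 2 * n) :
    ((2 * n - 1) * s + k) + ((2 * n - 1) * s + k - 1) / (2 * n - 1) = 2 * n * s + k := by
  have : ((2 * (n : ℤ) - 1) * s + k - 1) / (2 * n - 1) = s := by
    rw [show (2 * (n : ℤ) - 1) * s + k - 1 = (k - 1) + (2 * n - 1) * s by ring,
      Int.add_mul_ediv_left _ _ (by omega), Int.ediv_eq_zero_of_lt (by omega) (by omega), zero_add]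
  rw [this]; ring

theorem dncol (hn : 1 ≤ n) (s k : ℤ) (h0 : 0 ≤ k) (h1 : k < 2 * n) :
    (2 * n * s + k) - (2 * n * s + k) / (2 * n) = (2 * n - 1) * s + k := by
  have : (2 * (n : ℤ) * s + k) / (2 * n) = s := by
    rw [show 2 * (n : ℤ) * s + k = k + (2 * n) * s by ring,
      Int.add_mul_ediv_left _ _ (by omega), Int.ediv_eq_zero_of_lt h0 h1, zero_add]
  rw [this]; ring

/-- the glued points of the boundary -/
theorem glue' (hn : 1 ≤ n) (s k : ℤ) (h0 : 1 ≤ k) (h1 : k < 2 * n) :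
    Relation.EqvGen (Lk2 2 1 (2 * n - 2) ω ω') ((2 * n * s + k + 1, 0), false)
      (((2 * n - 1) * s + k, 0), true) := by
  refine Relation.EqvGen.rel _ _ ?_
  have h := Lk2.glue (p := 2) (r := 1) (M := 2 * n - 2) (ω := ω) (ω' := ω') s (k - 1).toNat (by omega)
  have e1 : s * ((2 + (2 * n - 2) : ℕ) : ℤ) + ((2 : ℕ) : ℤ) + ((k - 1).toNat : ℤ) =
      2 * n * s + k + 1 := by
    rw [show (2 + (2 * n - 2) : ℕ) = 2 * n by omega]
    have : ((k - 1).toNat : ℤ) = k - 1 := by omega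
    rw [this]; push_cast; ring
  have e2 : s * ((1 + (2 * n - 2) : ℕ) : ℤ) + ((1 : ℕ) : ℤ) + ((k - 1).toNat : ℤ) =
      (2 * n - 1) * s + k := by
    have e3 : ((1 + (2 * n - 2) : ℕ) : ℤ) = 2 * n - 1 := by omega
    have : ((k - 1).toNat : ℤ) = k - 1 := by omega
    rw [this, e3]; push_cast; ring
  rw [e1, e2] at h
  exact h

theorem nrm_pos {Z : Set ℤ} {d : ℤ} (hd : 0 ≤ d) (j t : ℤ) : nrm Z d j t = (j, t) := by
  unfold nrm
  rw [if_neg (by omega)]

theorem nrm_k {d : ℤ} (s k t : ℤ) (h0 : 1 ≤ k) (h1 : k < 2 * n) :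
    nrm (Zn n) d (2 * n * s + k) t = (2 * n * s + k, t) := by
  unfold nrm
  rw [if_neg]
  rintro ⟨-, h⟩
  rw [mem_Zn s k (by omega) h1] at h
  omega

theorem nrm_0 (hn : 1 ≤ n) {d : ℤ} (hd : d < 0) (s t : ℤ) :
    nrm (Zn n) d (2 * n * s + 0) t = (2 * n * (s - 1) + (2 * n - 1), t) := by
  unfold nrm
  rw [if_pos ⟨hd, (mem_Zn s 0 le_rfl (by omega)).2 rfl⟩]
  simp only [Prod.mk.injEq, and_true]
  ring

theorem phi_up' (hn : 1 ≤ n) (s k : ℤ) (t : ℕ) (h0 : 1 ≤ k) (h1 : k < 2 * n) :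
    phi n (((2 * n - 1) * s + k, t), true) = (2 * n * s + k, -(t : ℤ)) := by
  unfold phi
  simp only [if_true]
  rw [upcol hn s k h0 h1]

/-- the image of a point of the upper half -/
theorem phi_up (hn : 1 ≤ n) {d : ℤ} (hd : d < 0) (s k : ℤ) (t : ℕ) (h0 : 0 ≤ k) (h1 : k < 2 * n) :
    phi n (((2 * n - 1) * s + k, t), true) = nrm (Zn n) d (2 * n * s + k) (-(t : ℤ)) := by
  rcases eq_or_lt_of_le h0 with h | h
  · subst h
    rw [nrm_0 hn hd, ← phi_up' hn (s - 1) (2 * n - 1) t (by omega) (by omega)]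
    congr 3
    ring
  · rw [nrm_k s k _ (by omega) h1, phi_up' hn s k t (by omega) h1]

theorem phi_lo (j : ℤ) (t : ℕ) : phi n ((j, t), false) = (j - 1, (t : ℤ)) := by
  unfold phi; simp

theorem psi_up' (hn : 1 ≤ n) (s k : ℤ) (t : ℕ) (h0 : 1 ≤ k) (h1 : k < 2 * n) :
    Relation.EqvGen (Lk2 2 1 (2 * n - 2) ω ω') (psi n (2 * n * s + k, -(t : ℤ)))
      (((2 * n - 1) * s + k, t), true) := by
  rcases Nat.eq_zero_or_pos t with rfl | ht
  · have e : psi n (2 * n * s + k, -((0 : ℕ) : ℤ)) = ((2 * n * s + k + 1, 0), false) := by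
      unfold psi; simp
    rw [e]
    exact glue' hn s k h0 h1
  · have e : psi n (2 * n * s + k, -(t : ℤ)) = (((2 * n - 1) * s + k, t), true) := by
      unfold psi
      rw [if_neg (by simp only; omega)]
      simp only [neg_neg, Int.toNat_natCast]
      rw [dncol hn s k (by omega) h1]
    rw [e]
    exact Relation.EqvGen.refl _

theorem psi_up (hn : 1 ≤ n) {d : ℤ} (hd : d < 0) (s k : ℤ) (t : ℕ) (h0 : 0 ≤ k) (h1 : k < 2 * n) :
    Relation.EqvGen (Lk2 2 1 (2 * n - 2) ω ω') (psi n (nrm (Zn n) d (2 * n * s + k) (-(t : ℤ))))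
      (((2 * n - 1) * s + k, t), true) := by
  rcases eq_or_lt_of_le h0 with h | h
  · subst h
    rw [nrm_0 hn hd]
    have h2 := psi_up' (ω := ω) (ω' := ω') hn (s - 1) (2 * n - 1) t (by omega) (by omega)
    have e : (2 * (n : ℤ) - 1) * (s - 1) + (2 * n - 1) = (2 * n - 1) * s + 0 := by ring
    rw [e] at h2
    exact h2
  · rw [nrm_k s k _ (by omega) h1]
    exact psi_up' hn s k t (by omega) h1

theorem psi_lo (j : ℤ) (t : ℕ) : psi n (j, (t : ℤ)) = ((j + 1, t), false) := by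
  unfold psi
  rw [if_pos (by simp)]
  simp

/-- points of the upper half: coordinates -/
theorem upr (hn : 1 ≤ n) (j : ℤ) : ∃ s k : ℤ, 0 ≤ k ∧ k < 2 * n - 1 ∧ j = (2 * n - 1) * s + k ∧
    j % ((1 + (2 * n - 2) : ℕ) : ℤ) = k := by
  have e3 : ((1 + (2 * n - 2) : ℕ) : ℤ) = 2 * n - 1 := by omega
  refine ⟨j / (2 * n - 1), j % (2 * n - 1), Int.emod_nonneg _ (by omega),
    Int.emod_lt_of_pos _ (by omega), ?_, by rw [e3]⟩
  have := Int.mul_ediv_add_emod j (2 * n - 1)
  linarith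

/-- from the coins to the chart -/
theorem fwd (hn : 1 ≤ n) (H : Cmp n G ω ω') {x y : (ℤ × ℕ) × Bool}
    (h : Relation.EqvGen (Lk2 2 1 (2 * n - 2) ω ω') x y) : RC n G (phi n x) (phi n y) := by
  refine Pool.Agent.H160R2.ML.TmoveL.eqv_map' (phi n) ?_ h
  intro x y h
  have e2 : (2 + (2 * n - 2) : ℕ) = 2 * n := by omega
  cases h with
  | low x y h =>
    cases h with
    | rise j t h =>
      refine Relation.EqvGen.rel _ _ ((LZ_iff _ _ _ _).2 ⟨j - 1, t, by omega, Or.inl ⟨?_, ?_, ?_⟩⟩)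
      · rw [e2] at h
        have := H.lo j t
        rw [h] at this
        simpa using this
      · rw [phi_lo, nrm_pos (by omega)]
      · rw [phi_lo, nrm_pos (by omega)]
        push_cast
        ring_nf
    | fall j t h =>
      refine Relation.EqvGen.symm _ _ (Relation.EqvGen.rel _ _
        ((LZ_iff _ _ _ _).2 ⟨j - 1, t, by omega, Or.inr ⟨?_, ?_, ?_⟩⟩))
      · rw [e2] at h
        exact (H.lo j t).1 h
      · rw [phi_lo, nrm_pos (by omega)]
        push_cast
        rfl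
      · rw [phi_lo, nrm_pos (by omega)]
        ring_nf
    | wire s i h => omega
  | upp x y h =>
    cases h with
    | rise j t h =>
      obtain ⟨s, k, h0, h1, rfl, hk⟩ := upr hn j
      rw [hk] at h
      refine Relation.EqvGen.rel _ _ ((LZ_iff _ _ _ _).2 ⟨2 * n * s + k, -t - 1, ?_,
        Or.inr ⟨?_, ?_, ?_⟩⟩)
      · rintro ⟨-, h2⟩
        rw [add_assoc, mem_Zn s (k + 1) (by omega) (by omega)] at h2
        omega
      · intro h2
        have := (H.up s k t h0 h1).2 h2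
        rw [h] at this
        exact absurd this (by simp)
      · rw [phi_up hn (d := -t - 1) (by omega) s k t h0 (by omega)]
        ring_nf
      · rw [add_assoc, phi_up hn (d := -t - 1) (by omega) s (k + 1) (t + 1) (by omega) (by omega)]
        push_cast
        ring_nf
    | fall j t h =>
      obtain ⟨s, k, h0, h1, rfl, hk⟩ := upr hn j
      rw [hk] at h
      refine Relation.EqvGen.symm _ _ (Relation.EqvGen.rel _ _
        ((LZ_iff _ _ _ _).2 ⟨2 * n * s + k, -t - 1, ?_, Or.inl ⟨?_, ?_, ?_⟩⟩))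
      · rintro ⟨-, h2⟩
        rw [add_assoc, mem_Zn s (k + 1) (by omega) (by omega)] at h2
        omega
      · exact (H.up s k t h0 h1).1 h
      · rw [phi_up hn (d := -t - 1) (by omega) s k (t + 1) h0 (by omega)]
        push_cast
        ring_nf
      · rw [add_assoc, phi_up hn (d := -t - 1) (by omega) s (k + 1) t (by omega) (by omega)]
        ring_nf
    | wire s i h => omega
  | glue s i h =>
    have e3 : ((1 + (2 * n - 2) : ℕ) : ℤ) = 2 * n - 1 := by omega
    rw [e2, e3, phi_lo]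
    have h4 := phi_up' hn s (1 + i) 0 (by omega) (by omega)
    have e4 : s * (2 * (n : ℤ) - 1) + ((1 : ℕ) : ℤ) + (i : ℤ) = (2 * n - 1) * s + (1 + i) := by
      push_cast; ring
    rw [e4, h4]
    have e5 : s * ((2 * n : ℕ) : ℤ) + ((2 : ℕ) : ℤ) + (i : ℤ) - 1 = 2 * n * s + (1 + i) := by
      push_cast; ring
    rw [e5]
    simp only [Nat.cast_zero, neg_zero]
    exact Relation.EqvGen.refl _

/-- columns of the chart -/
theorem chr' (hn : 1 ≤ n) (j : ℤ) : ∃ s k : ℤ, 0 ≤ k ∧ k < 2 * n ∧ j = 2 * n * s + k := by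
  refine ⟨j / (2 * n), j % (2 * n), Int.emod_nonneg _ (by omega),
    Int.emod_lt_of_pos _ (by omega), ?_⟩
  have := Int.mul_ediv_add_emod j (2 * n)
  linarith

/-- from the chart to the coins -/
theorem bwd (hn : 1 ≤ n) (H : Cmp n G ω ω') {x y : ℤ × ℤ} (h : RC n G x y) :
    Relation.EqvGen (Lk2 2 1 (2 * n - 2) ω ω') (psi n x) (psi n y) := by
  refine Pool.Agent.H160R2.ML.TmoveL.eqv_map' (psi n) ?_ h
  intro x y h
  rw [LZ_iff] at h
  obtain ⟨s', d, h1, h2⟩ := h
  have e2 : (2 + (2 * n - 2) : ℕ) = 2 * n := by omega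
  rcases lt_or_ge d 0 with hd | hd
  · -- the side of the zippers
    obtain ⟨s, k, h3, h4, rfl⟩ := chr' hn s'
    obtain ⟨t, rfl⟩ : ∃ t : ℕ, d = -t - 1 := ⟨(-d - 1).toNat, by omega⟩
    have h5 : k < 2 * n - 1 := by
      by_contra h6
      apply h1
      refine ⟨hd, ?_⟩
      have h7 : 2 * (n : ℤ) * s + k + 1 = 2 * n * (s + 1) + 0 := by
        have : k = 2 * n - 1 := by omega
        rw [this]; ring
      rw [h7, mem_Zn (s + 1) 0 le_rfl (by omega)]
    have hmod : ((2 * (n : ℤ) - 1) * s + k) % ((1 + (2 * n - 2) : ℕ) : ℤ) = k := by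
      have e3 : ((1 + (2 * n - 2) : ℕ) : ℤ) = 2 * n - 1 := by omega
      rw [e3, show (2 * (n : ℤ) - 1) * s + k = k + (2 * n - 1) * s by ring,
        Int.add_mul_emod_self_left]
      exact Int.emod_eq_of_lt h3 h5
    rcases h2 with ⟨h6, rfl, rfl⟩ | ⟨h6, rfl, rfl⟩
    · -- rise: fall of the upper half
      have a1 := psi_up (ω := ω) (ω' := ω') hn hd s k (t + 1) h3 (by omega)
      have a2 := psi_up (ω := ω) (ω' := ω') hn hd s (k + 1) t (by omega) (by omega)
      have e4 : -((t + 1 : ℕ) : ℤ) = -t - 1 := by push_cast; ring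
      have e5 : (-(t : ℤ) - 1 + 1) = -t := by ring
      rw [e4] at a1
      rw [← add_assoc] at a2
      rw [e5]
      refine a1.trans _ _ _ (Relation.EqvGen.trans _ _ _ ?_ (a2.symm _ _))
      refine Relation.EqvGen.symm _ _ (Relation.EqvGen.rel _ _ (Lk2.upp _ _ ?_))
      have := HL.fall (N := 1 + (2 * n - 2)) (m := 1 + (2 * n - 2)) (ω := ω')
        ((2 * n - 1) * s + k) t (by rw [hmod]; exact (H.up s k t h3 h5).2 h6)
      rw [add_assoc] at this
      exact this
    · have a1 := psi_up (ω := ω) (ω' := ω') hn hd s k t h3 (by omega)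
      have a2 := psi_up (ω := ω) (ω' := ω') hn hd s (k + 1) (t + 1) (by omega) (by omega)
      have e4 : -((t + 1 : ℕ) : ℤ) = -t - 1 := by push_cast; ring
      have e5 : (-(t : ℤ) - 1 + 1) = -t := by ring
      rw [e4, ← add_assoc] at a2
      rw [e5]
      refine a1.trans _ _ _ (Relation.EqvGen.trans _ _ _ ?_ (a2.symm _ _))
      refine Relation.EqvGen.rel _ _ (Lk2.upp _ _ ?_)
      have := HL.rise (N := 1 + (2 * n - 2)) (m := 1 + (2 * n - 2)) (ω := ω')
        ((2 * n - 1) * s + k) t (by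
          rw [hmod]
          have h7 := H.up s k t h3 h5
          cases h8 : ω' (k, t)
          · rfl
          · exact absurd (h7.1 h8) h6)
      rw [add_assoc] at this
      exact this
  · obtain ⟨t, rfl⟩ : ∃ t : ℕ, d = t := ⟨d.toNat, by omega⟩
    rw [nrm_pos hd, nrm_pos hd, nrm_pos hd, nrm_pos hd] at h2
    have e6 : (t : ℤ) + 1 = ((t + 1 : ℕ) : ℤ) := by push_cast; rfl
    have hlo := H.lo (s' + 1) t
    rw [add_sub_cancel_right] at hlo
    rcases h2 with ⟨h6, rfl, rfl⟩ | ⟨h6, rfl, rfl⟩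
    · rw [e6, psi_lo, psi_lo]
      refine Relation.EqvGen.rel _ _ (Lk2.low _ _ (HL.rise _ _ ?_))
      rw [e2]
      cases h8 : ω ((s' + 1) % (2 * n : ℕ), t)
      · rfl
      · exact absurd h6 (hlo.1 h8)
    · rw [e6, psi_lo, psi_lo]
      refine Relation.EqvGen.symm _ _ (Relation.EqvGen.rel _ _ (Lk2.low _ _ (HL.fall _ _ ?_)))
      rw [e2]
      exact hlo.2 h6

/-- the fibres are connected -/
theorem ret (hn : 1 ≤ n) (x : (ℤ × ℕ) × Bool) :
    Relation.EqvGen (Lk2 2 1 (2 * n - 2) ω ω') (psi n (phi n x)) x := by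
  obtain ⟨⟨j, t⟩, b⟩ := x
  cases b
  · rw [phi_lo, psi_lo, sub_add_cancel]
    exact Relation.EqvGen.refl _
  · obtain ⟨s, k, h0, h1, h2⟩ : ∃ s k : ℤ, 1 ≤ k ∧ k < 2 * n ∧ j = (2 * n - 1) * s + k := by
      refine ⟨(j - 1) / (2 * n - 1), (j - 1) % (2 * n - 1) + 1, ?_, ?_, ?_⟩
      · have := Int.emod_nonneg (j - 1) (by omega : (2 * (n : ℤ) - 1) ≠ 0)
        omega
      · have := Int.emod_lt_of_pos (j - 1) (by omega : 0 < (2 * (n : ℤ) - 1))
        omega
      · have := Int.mul_ediv_add_emod (j - 1) (2 * n - 1)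
        linarith
    rw [h2, phi_up' hn s k t h0 h1]
    exact psi_up' hn s k t h0 h1

/-- **the two descriptions agree** -/
theorem iso (hn : 1 ≤ n) (H : Cmp n G ω ω') (x y : (ℤ × ℕ) × Bool) :
    RC n G (phi n x) (phi n y) ↔ Relation.EqvGen (Lk2 2 1 (2 * n - 2) ω ω') x y := by
  constructor
  · intro h
    have := bwd hn H h
    exact ((ret hn x).symm _ _).trans _ _ _ (this.trans _ _ _ (ret hn y))
  · exact fwd hn H

theorem phi_sec (hn : 1 ≤ n) (s : ℤ) (c : ℕ) (hc : c < 3) :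
    phi n (sec2 2 1 (2 * n - 2) s c) = scz n s c := by
  unfold sec2 scz
  rw [if_pos (by omega), phi_lo]
  have e2 : (2 + (2 * n - 2) : ℕ) = 2 * n := by omega
  rw [e2]
  simp only [Nat.cast_zero, Prod.mk.injEq, and_true]
  push_cast
  ring

theorem sec_iff (hn : 1 ≤ n) (H : Cmp n G ω ω') (s t : ℤ) (c d : ℕ) (hc : c < 3) (hd : d < 3) :
    RC n G (scz n s c) (scz n t d) ↔
      Relation.EqvGen (Lk2 2 1 (2 * n - 2) ω ω') (sec2 2 1 (2 * n - 2) s c)
        (sec2 2 1 (2 * n - 2) t d) := by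
  rw [← iso hn H, phi_sec hn s c hc, phi_sec hn t d hd]

end TISO

end Pool.Agent.W801.OU
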