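import Pool.Agent.W801.OU.T_ISO
import Pool.Agent.H906R2.Arm.Link

/-! # Trichotomy (periodic configurations) -/

set_option autoImplicit false

namespace Pool.Agent.W801.OU
open H974 H906.Cyl
open Pool.Agent.W801.OL
open Pool.Agent.W808.HB (Alt coinsH HL crow)

namespace TISO

theorem per_edz {n : ℕ} (F : Finset Edg) (s d : ℤ) :
    edz s d ∈ per n F ↔ edz (s - 2 * n * (s / (2 * n))) d ∈ F := by
  unfold per
  rw [Set.mem_ofPred_eq, red_edz]

theorem Ri_per {n : ℕ} (hn : 1 ≤ n) (F : Finset Edg) (s q d : ℤ) :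
    Ri (per n F) (s + 2 * n * q) d ↔ Ri (per n F) s d := by
  unfold Ri
  rw [per_edz, per_edz]
  have e1 : (s + 2 * n * q) / (2 * n) = s / (2 * n) + q := by
    rw [Int.add_mul_ediv_left _ _ (by omega)]
  have e2 : s + 2 * n * q - 2 * n * ((s + 2 * n * q) / (2 * n)) = s - 2 * n * (s / (2 * n)) := by
    rw [e1]; ring
  rw [e2]
  have e3 : (s + 2 * n * q + d) % 2 = (s + d) % 2 := by
    rw [show s + 2 * n * q + d = (s + d) + 2 * (n * q) by ring, Int.add_mul_emod_self_left]
  rw [e3]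

open Classical in
/-- the coins of a configuration -/
noncomputable def cl (G : Set Edg) : ℤ × ℕ → Bool := fun x => decide (¬ Ri G (x.1 - 1) x.2)

open Classical in
/-- the coins of a configuration -/
noncomputable def cu (G : Set Edg) : ℤ × ℕ → Bool := fun x => decide (Ri G x.1 (-x.2 - 1))

theorem cmp_per {n : ℕ} (hn : 1 ≤ n) (F : Finset Edg) : Cmp n (per n F) (cl (per n F)) (cu (per n F)) := by
  constructor
  · intro j t
    unfold cl
    simp only [decide_eq_true_eq]
    have : j - 1 = j % (2 * n : ℕ) - 1 + 2 * n * (j / (2 * n)) := by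
      have := Int.mul_ediv_add_emod j (2 * n)
      push_cast
      linarith
    rw [this, Ri_per hn]
  · intro s k t _ _
    unfold cu
    simp only [decide_eq_true_eq]
    rw [show 2 * (n : ℤ) * s + k = k + 2 * n * s by ring, Ri_per hn]

/-- the leg event in both descriptions -/
theorem G3_iff {n : ℕ} {G : Set Edg} {ω ω' : ℤ × ℕ → Bool} (hn : 1 ≤ n) (H : Cmp n G ω ω') :
    G3 n G ↔ LegEv2 2 1 (2 * n - 2) ω ω' := by
  unfold G3 LegEv2 Outw
  have h3 : 2 + 1 = 3 := rfl
  rw [h3]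
  refine and_congr ?_ ?_
  · refine forall_congr' fun c => forall_congr' fun d => forall_congr' fun hc =>
      forall_congr' fun hd => forall_congr' fun _ => not_congr ?_
    exact sec_iff hn H 0 0 c d hc hd
  · refine forall_congr' fun c => forall_congr' fun hc => exists_congr fun s =>
      and_congr_right fun _ => exists_congr fun d => and_congr_right fun hd => ?_
    exact sec_iff hn H 0 s c d hc hd

/-- trichotomy for configurations with alternating rows -/
theorem tri {n : ℕ} {G : Set Edg} {ω ω' : ℤ × ℕ → Bool} (hn : 2 ≤ n) (H : Cmp n G ω ω') (t t' : ℕ)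
    (hA : Alt (2 * n) ω t) (hA' : Alt (2 * n - 1) ω' t') : G3 n G ∨ Alt3 n G := by
  have hn1 : 1 ≤ n := by omega
  rcases t_TRI2 2 1 (2 * n - 2) t t' rfl (by omega) ω ω'
    (by rw [show 2 + (2 * n - 2) = 2 * n by omega]; exact hA)
    (by rw [show 1 + (2 * n - 2) = 2 * n - 1 by omega]; exact hA') with h | h
  · exact Or.inl ((G3_iff hn1 H).2 h)
  · right
    obtain ⟨t, a, b, ht, ha, hb, h1, h2, h3, h4, h5, h6, s, hs, d, hd, h7⟩ := h
    refine ⟨t, a, b, ht, ha, hb, h1, h2, h3, (sec_iff hn1 H 0 0 a b ha hb).2 h4,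
      fun h => h5 ((sec_iff hn1 H 0 0 t a ht ha).1 h), ?_,
      ⟨s, hs, d, hd, (sec_iff hn1 H 0 s a d ha hd).2 h7⟩⟩
    rintro ⟨s, hs, d, hd, h⟩
    exact h6 ⟨s, hs, d, hd, (sec_iff hn1 H 0 s t d ht hd).1 h⟩

end TISO

open TISO in
/-- **trichotomy** -/
theorem t_TRIc : S_TRIc := by
  intro n M hn F hF
  have hout : ∀ s d : ℤ, (d < -M ∨ (M : ℤ) ≤ d) → edz s d ∉ per n F := by
    intro s d hd h
    rw [per_edz] at h
    have h2 := (mem_CE.1 (hF h)).2
    rw [dco_edz] at h2
    omega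
  refine tri hn (cmp_per (by omega) F) (2 * M) (2 * M + 1) ?_ ?_
  · intro j hj
    unfold cl Ri
    have h1 := hout ((j : ℤ) - 1) ((2 * M : ℕ) : ℤ) (Or.inr (by push_cast; omega))
    have h2 : (((j : ℤ) - 1 + ((2 * M : ℕ) : ℤ)) % 2 = 0) ↔ j % 2 = 1 := by push_cast; omega
    simp only [h1, h2]
    by_cases h : j % 2 = 1 <;> simp [h]
  · intro j hj
    unfold cu Ri
    have h1 := hout (j : ℤ) (-((2 * M + 1 : ℕ) : ℤ) - 1) (Or.inl (by push_cast; omega))
    have h2 : (((j : ℤ) + (-((2 * M + 1 : ℕ) : ℤ) - 1)) % 2 = 0) ↔ ¬ j % 2 = 1 := by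
      push_cast; omega
    simp only [h1, h2]
    by_cases h : j % 2 = 1 <;> simp [h]

end Pool.Agent.W801.OU
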