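import Pool.Agent.W801.OU.Stm
import Pool.Agent.W801.OL.T_LS
import Pool.Agent.W801.OL.T_base
import Pool.Agent.W639.OL.T_one

/-! # Trichotomy for three legs (words) -/

set_option autoImplicit false

namespace Pool.Agent.W801.OU
open Pool.Agent.H863R2.Cyl
open Pool.Agent.H988R2.Perc (Word)
open Pool.Agent.H160R2.ML
open Pool.Agent.W808.HB (bwm)

namespace TTRI

/-- the trichotomy of a pattern -/
def TriQ (Q : ℤ → ℕ → ℤ → ℕ → Prop) : Prop :=
  ((∀ c d : ℕ, c < 3 → d < 3 → c ≠ d → ¬ Q 0 c 0 d) ∧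
    ∀ c : ℕ, c < 3 → ∃ s : ℤ, s ≠ 0 ∧ ∃ d : ℕ, d < 3 ∧ Q 0 c s d) ∨
  ∃ t a b : ℕ, t < 3 ∧ a < 3 ∧ b < 3 ∧ t ≠ a ∧ t ≠ b ∧ a ≠ b ∧ Q 0 a 0 b ∧ ¬ Q 0 t 0 a ∧
    (¬ ∃ s : ℤ, s ≠ 0 ∧ ∃ d : ℕ, d < 3 ∧ Q 0 t s d) ∧ (∃ s : ℤ, s ≠ 0 ∧ ∃ d : ℕ, d < 3 ∧ Q 0 a s d)

theorem TriQ_congr {Q Q' : ℤ → ℕ → ℤ → ℕ → Prop} (ρ : ℕ → ℕ) (h1 : ∀ c, c < 3 → ρ c < 3)
    (h2 : ∀ c d, c < 3 → d < 3 → ρ c = ρ d → c = d) (h3 : ∀ c, c < 3 → ∃ c' < 3, ρ c' = c)
    (hQ : ∀ (s t : ℤ) (c d : ℕ), c < 3 → d < 3 → (Q s c t d ↔ Q' s (ρ c) t (ρ d)))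
    (h : TriQ Q') : TriQ Q := by
  have hout : ∀ c : ℕ, c < 3 → ((∃ s : ℤ, s ≠ 0 ∧ ∃ d : ℕ, d < 3 ∧ Q 0 c s d) ↔
      (∃ s : ℤ, s ≠ 0 ∧ ∃ d : ℕ, d < 3 ∧ Q' 0 (ρ c) s d)) := by
    intro c hc
    constructor
    · rintro ⟨s, hs, d, hd, h⟩
      exact ⟨s, hs, ρ d, h1 d hd, (hQ _ _ _ _ hc hd).1 h⟩
    · rintro ⟨s, hs, d, hd, h⟩
      obtain ⟨d', hd', rfl⟩ := h3 d hd
      exact ⟨s, hs, d', hd', (hQ _ _ _ _ hc hd').2 h⟩
  rcases h with ⟨a1, a2⟩ | ⟨t, a, b, ht, ha, hb, hta, htb, hab, c1, c2, c3, c4⟩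
  · left
    refine ⟨fun c d hc hd hcd h => a1 _ _ (h1 c hc) (h1 d hd) (fun h => hcd (h2 c d hc hd h))
      ((hQ _ _ _ _ hc hd).1 h), fun c hc => (hout c hc).2 (a2 _ (h1 c hc))⟩
  · right
    obtain ⟨t, ht', rfl⟩ := h3 t ht
    obtain ⟨a, ha', rfl⟩ := h3 a ha
    obtain ⟨b, hb', rfl⟩ := h3 b hb
    refine ⟨t, a, b, ht', ha', hb', fun h => hta (by rw [h]), fun h => htb (by rw [h]),
      fun h => hab (by rw [h]), (hQ _ _ _ _ ha' hb').2 c1, fun h => c2 ((hQ _ _ _ _ ht' ha').1 h),
      fun h => c3 ((hout t ht').1 h), (hout a ha').2 c4⟩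

/-- the pattern -/
def Pq (p r : ℕ) (w' w : Word) : ℤ → ℕ → ℤ → ℕ → Prop :=
  fun s c t d => Cn p r w' w (pt p r w' w s c) (pt p r w' w t d)

/-- symmetry -/
theorem symm {p r : ℕ} {w' w : Word} (hpr : p + r = 3) (h : w'.length + p = w.length + r)
    (hp : p ≤ w.length) (hT : TriQ (Pq p r w' w)) : TriQ (Pq r p w w') := by
  refine TriQ_congr (Tsymm.sc 3) (fun c hc => Tsymm.sc_lt hc) (fun c d hc hd he => by
    rw [← Tsymm.sc_sc hc, ← Tsymm.sc_sc hd, he]) (fun c hc => ⟨Tsymm.sc 3 c, Tsymm.sc_lt hc,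
    Tsymm.sc_sc hc⟩) ?_ hT
  intro s t c d hc hd
  unfold Pq
  have a1 := Tsymm.pt_sc h hp s (hpr.symm ▸ Tsymm.sc_lt hc : Tsymm.sc 3 c < p + r)
  have a2 := Tsymm.pt_sc h hp t (hpr.symm ▸ Tsymm.sc_lt hd : Tsymm.sc 3 d < p + r)
  rw [hpr, Tsymm.sc_sc hc] at a1
  rw [hpr, Tsymm.sc_sc hd] at a2
  constructor
  · intro hcn
    have a3 := Tsymm.cn_fl h.symm hcn
    exact (a1.trans _ _ _ a3).trans _ _ _ (a2.symm _ _)
  · intro hcn
    have a3 : Cn p r w' w (Tsymm.fl (pt r p w w' s c)) (Tsymm.fl (pt r p w w' t d)) :=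
      ((a1.symm _ _).trans _ _ _ hcn).trans _ _ _ a2
    have a4 := Tsymm.cn_fl h a3
    rwa [Tsymm.fl_fl, Tsymm.fl_fl] at a4

open Sem4Aux in
theorem rw_same {i : ℕ} {u : Word} (hi : i ≤ u.length) {a b : ℤ} (ha : ¬ iso u.length i a)
    (hb : ¬ iso u.length i b) (h : sm u.length i a = sm u.length i b) : Rw (lins i u) a b := by
  rw [TmoveR.rw_lins' hi]
  right
  refine ⟨ha, hb, ?_⟩
  rw [h]
  exact (Rw_equiv _).refl _

/-- the map of the faces -/
def up (N i : ℕ) (x : ℤ × Bool) : ℤ × Bool := if x.2 = true then x else (Sem4Aux.sec N i x.1, false)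

open Sem4Aux in
/-- from the word without the small arc between legs -/
theorem back {p r i : ℕ} {w' u : Word} (hip : i + 2 ≤ p) (hp : p ≤ u.length + 2)
    (hu : 1 ≤ u.length) {x y : ℤ × Bool} (h : Cn (p - 2) r w' u x y) :
    Cn p r w' (lins i u) (up u.length i x) (up u.length i y) := by
  have hi : i ≤ u.length := by omega
  refine TmoveL.eqv_map' (up u.length i) ?_ h
  intro x y h
  cases h with
  | low a b h =>
    refine Relation.EqvGen.rel _ _ ?_
    simp only [up, Bool.false_eq_true, if_false]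
    refine Lg.low _ _ ?_
    rw [TmoveR.rw_lins' hi]
    right
    obtain ⟨a1, a2⟩ := sec_spec (i := i) hu a
    obtain ⟨b1, b2⟩ := sec_spec (i := i) hu b
    exact ⟨a1, b1, by rw [a2, b2]; exact h⟩
  | upp a b h =>
    refine Relation.EqvGen.rel _ _ ?_
    simp only [up, if_true]
    exact Lg.upp _ _ h
  | glue s j hj =>
    simp only [up, Bool.false_eq_true, if_false, if_true]
    have g := Lg.glue (p := p) (r := r) (w' := w') (w := lins i u) s j
      (by rw [Tzero.len_lins]; omega)
    obtain ⟨t1, t2⟩ := TinsR.sm_hi (N := u.length) (i := i) hi s (p + j) (by omega) (by omega)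
    obtain ⟨a1, a2⟩ := sec_spec (i := i) hu (s * u.length + ((p - 2 : ℕ) : ℤ) + j)
    have e : s * ((lins i u).length : ℤ) + p + j = s * ((u.length : ℤ) + 2) + (p + j) := by
      rw [Tzero.len_lins]; push_cast; ring
    rw [e] at g
    refine Relation.EqvGen.trans _ _ _ (Relation.EqvGen.rel _ _ (Lg.low _ _ (rw_same hi a1 t2 ?_)))
      (Relation.EqvGen.rel _ _ g)
    rw [a2, t1]
    have : ((p - 2 : ℕ) : ℤ) = p - 2 := by omega
    rw [this]; ring

open Sem4Aux in
theorem out0 {p r i : ℕ} {w' u : Word} (hip : i + 2 ≤ p) (hp : p ≤ u.length + 2) (hpr : p + r = 3)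
    (hl : w'.length + p = u.length + 2 + r) (h1 : Ok w') (h2 : Ok u) :
    ∃ s : ℤ, s ≠ 0 ∧ Cn p r w' (lins i u) (pt p r w' (lins i u) 0 0) (pt p r w' (lins i u) s 0) := by
  have hi : i ≤ u.length := by omega
  rcases Nat.eq_zero_or_pos u.length with h0 | h0
  · obtain rfl : u = [] := List.length_eq_zero_iff.1 h0
    obtain rfl : i = 0 := by simpa using hi
    refine ⟨1, one_ne_zero, ?_⟩
    have e1 : pt p r w' (lins 0 []) 0 0 = (0, false) := by simp [pt]
    have e2 : pt p r w' (lins 0 []) 1 0 = (2, false) := by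
      simp only [pt, Nat.zero_le, if_true, Tzero.len_lins]
      simp
    rw [e1, e2]
    refine Relation.EqvGen.rel _ _ (Lg.low _ _ ?_)
    rw [TmoveR.rw_nil]
    right
    constructor <;> norm_num
  · have hone : Good (p - 2) r w' u := by
      have h3 := Pool.Agent.W801.OL.t_one ee
        (Pool.Agent.W801.OL.t_LS Pool.Agent.W801.OL.t_base 1 (by decide)) (p - 2) r w' u
        (by omega) h1 h2 (by omega) (by omega)
      unfold ee at h3
      by_contra h4
      rw [if_neg h4] at h3
      exact zero_ne_one h3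
    obtain ⟨s, hs, d, hd, h4⟩ := hone.2 0 (by omega)
    obtain rfl : d = 0 := by omega
    refine ⟨s, hs, ?_⟩
    have h5 := back hip hp h0 h4
    have e1 : ∀ t : ℤ, pt (p - 2) r w' u t 0 = (t * u.length, false) := by
      intro t; simp [pt]
    have e2 : ∀ t : ℤ, pt p r w' (lins i u) t 0 = (t * ((u.length : ℤ) + 2) + 0, false) := by
      intro t
      simp only [pt, Nat.zero_le, if_true, Tzero.len_lins]
      push_cast
      rfl
    have e3 : ∀ t : ℤ, Cn p r w' (lins i u) (up u.length i (t * u.length, false))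
        (t * ((u.length : ℤ) + 2) + 0, false) := by
      intro t
      simp only [up, Bool.false_eq_true, if_false]
      obtain ⟨t1, t2⟩ := TinsR.sm_lo (N := u.length) (i := i) hi t 0 le_rfl (by omega)
      obtain ⟨a1, a2⟩ := sec_spec (i := i) h0 (t * u.length)
      refine Relation.EqvGen.rel _ _ (Lg.low _ _ (rw_same hi a1 t2 ?_))
      rw [a2, t1, add_zero]
    rw [e1, e1] at h5
    rw [e2, e2]
    exact ((e3 0).symm _ _).trans _ _ _ (h5.trans _ _ _ (e3 s))

/-- a small arc between two legs -/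
theorem zeroc {p r i : ℕ} {w' u : Word} (hip : i + 2 ≤ p) (hp : p ≤ u.length + 2) (hpr : p + r = 3)
    (hl : w'.length + p = u.length + 2 + r) (h1 : Ok w') (h2 : Ok u) :
    TriQ (Pq p r w' (lins i u)) := by
  have hi : i ≤ u.length := by omega
  obtain ⟨s, hs, hout⟩ := out0 hip hp hpr hl h1 h2
  have hmid : pt p r w' (lins i u) 0 (i + 1) = ((i : ℤ) + 1, false) := by
    unfold pt
    rw [if_pos (by omega)]
    simp
  have hn : ¬ ∃ s : ℤ, s ≠ 0 ∧ ∃ d : ℕ, d < 3 ∧ Pq p r w' (lins i u) 0 (i + 1) s d := by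
    rintro ⟨s, hs, d, hd, h1⟩
    have h2 := (Tzero.inv hip hp h1).1 hmid
    unfold pt at h2
    split_ifs at h2 with h3
    · simp only [Prod.mk.injEq, and_true] at h2
      rw [Tzero.len_lins] at h2
      push_cast at h2
      rcases lt_or_gt_of_ne hs with h4 | h4
      · have : s * ((u.length : ℤ) + 2) ≤ (-1) * ((u.length : ℤ) + 2) :=
          mul_le_mul_of_nonneg_right (by omega) (by positivity)
        omega
      · have : 1 * ((u.length : ℤ) + 2) ≤ s * ((u.length : ℤ) + 2) :=
          mul_le_mul_of_nonneg_right (by omega) (by positivity)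
        omega
    · simp at h2
  have h00 : pt p r w' (lins i u) 0 0 = (0, false) := by simp [pt]
  have hn0 : ¬ Pq p r w' (lins i u) 0 (i + 1) 0 0 := by
    intro h1
    have h2 := (Tzero.inv hip hp h1).1 hmid
    rw [h00] at h2
    simp only [Prod.mk.injEq, and_true] at h2
    omega
  obtain ⟨t1, t2⟩ := TinsR.sm_lo (N := u.length) (i := i) hi 0 i (by omega) (by omega)
  obtain ⟨t3, t4⟩ := TinsR.sm_hi (N := u.length) (i := i) hi 0 (i + 2) (by omega) (by omega)
  have hrw : Rw (lins i u) (0 * ((u.length : ℤ) + 2) + i) (0 * ((u.length : ℤ) + 2) + (i + 2)) := by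
    refine rw_same hi t2 t4 ?_
    rw [t1, t3]; ring
  right
  have hi1 : i = 0 ∨ i = 1 := by omega
  rcases hi1 with rfl | rfl
  · refine ⟨1, 0, 2, by omega, by omega, by omega, by omega, by omega, by omega, ?_, hn0, hn,
      ⟨s, hs, 0, by omega, hout⟩⟩
    unfold Pq
    have h02 : pt p r w' (lins 0 u) 0 2 = (2, false) := by
      unfold pt
      rw [if_pos (by omega)]
      simp
    rw [h00, h02]
    refine Relation.EqvGen.rel _ _ (Lg.low _ _ ?_)
    simpa using hrw
  · obtain rfl : p = 3 := by omega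
    obtain rfl : r = 0 := by omega
    refine ⟨2, 0, 1, by omega, by omega, by omega, by omega, by omega, by omega, ?_, hn0, hn,
      ⟨s, hs, 0, by omega, hout⟩⟩
    unfold Pq
    have h01 : pt 3 0 w' (lins 1 u) 0 1 = (1, false) := by
      unfold pt
      rw [if_pos (by omega)]
      simp
    rw [h00, h01]
    have r1 : Cn 3 0 w' (lins 1 u) (1, false) (3, false) := by
      refine Relation.EqvGen.rel _ _ (Lg.low _ _ ?_)
      have e1 : (0 : ℤ) * ((u.length : ℤ) + 2) + ((1 : ℕ) : ℤ) = 1 := by push_cast; ring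
      have e2 : (0 : ℤ) * ((u.length : ℤ) + 2) + (((1 : ℕ) : ℤ) + 2) = 3 := by push_cast; ring
      rw [e1, e2] at hrw
      exact hrw
    have r2 : Cn 3 0 w' (lins 1 u) (3, false) (0, true) := by
      have g := Lg.glue (p := 3) (r := 0) (w' := w') (w := lins 1 u) 0 0
        (by rw [Tzero.len_lins]; omega)
      have e1 : (0 : ℤ) * ((lins 1 u).length : ℤ) + ((3 : ℕ) : ℤ) + ((0 : ℕ) : ℤ) = 3 := by
        push_cast; ring
      have e2 : (0 : ℤ) * (w'.length : ℤ) + ((0 : ℕ) : ℤ) + ((0 : ℕ) : ℤ) = 0 := by push_cast; ring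
      rw [e1, e2] at g
      exact Relation.EqvGen.rel _ _ g
    have r3 : Cn 3 0 w' (lins 1 u) (0, false) (0, true) := by
      have g := Lg.glue (p := 3) (r := 0) (w' := w') (w := lins 1 u) (-1) w'.length
        (by rw [Tzero.len_lins]; omega)
      have e1 : (-1 : ℤ) * ((lins 1 u).length : ℤ) + ((3 : ℕ) : ℤ) + (w'.length : ℤ) = 0 := by
        rw [Tzero.len_lins]
        have : (w'.length : ℤ) + 3 = u.length + 2 := by exact_mod_cast hl
        push_cast
        linarith
      have e2 : (-1 : ℤ) * (w'.length : ℤ) + ((0 : ℕ) : ℤ) + (w'.length : ℤ) = 0 := by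
        push_cast; ring
      rw [e1, e2] at g
      exact Relation.EqvGen.rel _ _ g
    exact r3.trans _ _ _ (r1.trans _ _ _ r2 |>.symm _ _)

/-- the induction -/
theorem main (M : ℕ) : ∀ (p r : ℕ) (w' w : Word), p + r = 3 → Ok w' → Ok w → w.length = p + M →
    w'.length = r + M → TriQ (Pq p r w' w) := by
  induction M using Nat.strong_induction_on with
  | _ M ih =>
    have core : ∀ (p r : ℕ) (w' w : Word), 2 ≤ p → p + r = 3 → Ok w' → Ok w → w.length = p + M →
        w'.length = r + M → TriQ (Pq p r w' w) := by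
      intro p r w' w hp hpr ow' ow hl hl'
      by_cases hw : w = bwm (p + M)
      · rcases Nat.eq_zero_or_pos M with rfl | hM
        · -- base
          left
          have hw' : w' = bwm r := by
            have hr : r = 0 ∨ r = 1 := by omega
            rcases hr with rfl | rfl
            · have : w' = [] := List.length_eq_zero_iff.1 (by omega)
              rw [this]; rfl
            · obtain ⟨b, rfl⟩ := List.length_eq_one_iff.1 (by omega : w'.length = 1)
              cases b
              · simp [Ok] at ow'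
              · rfl
          have h1 := Pool.Agent.W801.OL.t_base p r (by rw [hpr]; decide)
          have hg : Good p r (bwm r) (bwm p) := by
            unfold ee at h1
            by_contra h4
            rw [if_neg h4] at h1
            exact zero_ne_one h1
          rw [hw, hw', Nat.add_zero]
          unfold Pool.Agent.H160R2.ML.Good at hg
          rw [hpr] at hg
          exact hg
        · -- the arc of the seam
          obtain ⟨P, rfl⟩ : ∃ P, p = P + 1 := ⟨p - 1, by omega⟩
          obtain ⟨m, hm⟩ : ∃ m, P + 1 + M = m + 2 := ⟨P + M - 1, by omega⟩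
          rw [hm, Pool.Agent.W801.OL.Tone.bwm_seam] at hw
          subst hw
          have hbl := Pool.Agent.W801.OL.Tone.bwm_length m
          have hL : w'.length + (P + 1) = (bwm m).length + 2 + r := by rw [hbl]; omega
          have hP : P ≤ (bwm m).length := by rw [hbl]; omega
          refine TriQ_congr (TmoveL.rho P r) (fun c hc => ?_) (fun c d hc hd h => ?_)
            (fun c hc => ?_) (fun s t c d hc hd => ?_)
            (ih (M - 1) (by omega) P (r + 1) (rotr w') (bwm m) (by omega) (ok_rotr.2 ow')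
              (Pool.Agent.W801.OL.Tone.bwm_ok m) (by rw [hbl]; omega)
              (by rw [length_rotr]; omega))
          · have := TmoveL.rho_lt (P := P) (r := r) (c := c) (by omega)
            omega
          · exact TmoveL.rho_inj (P := P) (r := r) (by omega) (by omega) h
          · obtain ⟨c', h1, h2⟩ := TmoveL.rho_surj (P := P) (r := r) (c := c) (by omega)
            exact ⟨c', by omega, h2⟩
          · exact TmoveL.Cn_pt hL hP s t c d (by omega) (by omega)
      · obtain ⟨i, u, rfl, ou, hu, hi⟩ := Pool.Agent.W808.HB.Tbs.exists_arc (p + M) w hl ow hw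
        rcases Nat.lt_or_ge (i + 1) p with h1 | h1
        · exact zeroc (by omega) (by omega) hpr (by omega) ow' ou
        · rcases Nat.lt_or_ge i p with h2 | h2
          · -- moveR
            obtain rfl : p = i + 1 := by omega
            refine TriQ_congr id (fun c hc => hc) (fun c d _ _ h => h) (fun c hc => ⟨c, hc, rfl⟩)
              (fun s t c d hc hd => ?_)
              (ih (M - 1) (by omega) i (r + 1) w' u (by omega) ow' ou (by omega) (by omega))
            unfold Pq
            rw [TmoveR.cn_iff (by omega), TmoveR.pt_eq (by omega), TmoveR.pt_eq (by omega)]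
            rfl
          · -- insR
            have h3 := length_cap (i := i - p + r) (w := w') (by omega)
            have H : TinsR.HH p r i w' u (cap (i - p + r) w') (i - p + r) :=
              { ok := ow'
                l2 := h3.symm
                lv := by omega
                hv := rfl
                ii := by omega
                hp := h2
                hi := by omega }
            refine TriQ_congr id (fun c hc => hc) (fun c d _ _ h => h) (fun c hc => ⟨c, hc, rfl⟩)
              (fun s t c d hc hd => ?_)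
              (ih (M - 2) (by omega) p r (cap (i - p + r) w') u hpr (ok_cap ow' (by omega)) ou
                (by omega) (by omega))
            unfold Pq
            rw [H.cn_iff (H.ptt s c (by omega)).1 (H.ptt t d (by omega)).1,
              (H.ptt s c (by omega)).2, (H.ptt t d (by omega)).2]
            rfl
    intro p r w' w hpr ow' ow hl hl'
    rcases Nat.lt_or_ge p 2 with h | h
    · have := core r p w w' (by omega) (by omega) ow ow' hl' hl
      exact symm (by omega) (by omega) (by omega) this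
    · exact core p r w' w h hpr ow' ow hl hl'

end TTRI

/-- **trichotomy** -/
theorem t_TRIw : S_TRIw := by
  intro p r M w' w hpr _ ow' ow hl hl'
  have h := TTRI.main M p r w' w hpr ow' ow hl hl'
  unfold Pool.Agent.H160R2.ML.Good
  rw [hpr]
  exact h

end Pool.Agent.W801.OU
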