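import Pool.Agent.W801.OL.Stm
import Pool.Agent.H160R2.MU.Defs

/-!
# The dislocated plane and the dislocated cylinder in the coordinates of `ℤ²`: definitions

Points `(j, t) ∈ ℤ × ℤ` (vertices and faces: `(x, y)` is the point `(x + y, x - y)`, the face of lower
left corner `(x, y)` is the point `(x + y + 1, x - y)`).  The square of the edge `e` has the corners
`(s, d), (s + 1, d), (s, d + 1), (s + 1, d + 1)`, `s = e.1 + e.2.1`, `d = dco e`; the diagonal of class
`0` is the edge, the one of class `1` is the dual edge.  An open edge links the ends of its diagonal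
of class `0`, a closed edge those of its diagonal of class `1`.

Dislocation: on the side `dco e < 0` the squares with `s + 1 ∈ Z` are removed and the points `(z, t)`,
`z ∈ Z`, seen from the squares on their right, are glued with the points `(z - 1, t)`.
-/

set_option autoImplicit false

namespace Pool.Agent.W801.OU
open H974 H906.Cyl
open MeasureTheory
open Pool.Agent.H160R2.ML (nm)
open Pool.Agent.H160R2.MU (PC)
open Pool.Agent.W801.OL (LegEv2 sec2 Lk2)
open Pool.Agent.W808.HB (Alt coinsH)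

/-- the removed squares -/
def zp (Z : Set ℤ) : Set Edg := {e | dco e < 0 ∧ e.1 + e.2.1 + 1 ∈ Z}

open Classical in
/-- the normal form of the corner `(j, t)` of a square on the side `d` (`d < 0`: side of the zippers) -/
noncomputable def nrm (Z : Set ℤ) (d j t : ℤ) : ℤ × ℤ := if d < 0 ∧ j ∈ Z then (j - 1, t) else (j, t)

/-- the diagonal of class `c` of the square of the edge `e` -/
inductive Dg (Z : Set ℤ) (c : ℤ) (e : Edg) : ℤ × ℤ → ℤ × ℤ → Prop
  | rise : (e.1 + e.2.1 + dco e) % 2 = c → Dg Z c e (nrm Z (dco e) (e.1 + e.2.1) (dco e))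
      (nrm Z (dco e) (e.1 + e.2.1 + 1) (dco e + 1))
  | fall : (e.1 + e.2.1 + dco e) % 2 = 1 - c → Dg Z c e (nrm Z (dco e) (e.1 + e.2.1) (dco e + 1))
      (nrm Z (dco e) (e.1 + e.2.1 + 1) (dco e))

/-- links of the squares of `B` in the configuration `G` -/
def LZ (Z : Set ℤ) (B G : Set Edg) (x y : ℤ × ℤ) : Prop :=
  ∃ e ∈ B, e ∉ zp Z ∧ ((e ∈ G ∧ Dg Z 0 e x y) ∨ (e ∉ G ∧ Dg Z 1 e x y))

/-- connections (clusters may cross the zippers, where they change the class) -/
def RZ (Z : Set ℤ) (B G : Set Edg) : ℤ × ℤ → ℤ × ℤ → Prop := Relation.EqvGen (LZ Z B G)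

/-- `x` is a corner of class `c` of the square of `e` (in normal form) -/
def Cor (Z : Set ℤ) (c : ℤ) (e : Edg) (x : ℤ × ℤ) : Prop :=
  e ∉ zp Z ∧ ∃ y, Dg Z c e x y ∨ Dg Z c e y x

/-- the three sectors of the tip `s`: `(-1, 0), (0, 0), (1, 0)` shifted by `2 n s` -/
def scz (n : ℕ) (s : ℤ) (c : ℕ) : ℤ × ℤ := (2 * n * s + c - 1, 0)

/-! ## the plane -/

/-- the squares of the box -/
def bxz (R : ℤ) : Set Edg := {e | nm (src e) ≤ R ∧ nm (tgt e) ≤ R}

/-- the three sectors of the tip are pairwise not connected in the box and connected to its boundary -/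
def SE3 (R : ℤ) (G : Set Edg) : Prop :=
  (∀ c d : ℕ, c < 3 → d < 3 → c ≠ d → ¬ RZ {0} (bxz R) G (scz 0 0 c) (scz 0 0 d)) ∧
  (∀ c : ℕ, c < 3 → ∃ x : ℤ × ℤ, RZ {0} (bxz R) G (scz 0 0 c) x ∧
    ∃ e ∉ bxz R, Cor {0} 0 e x ∨ Cor {0} 1 e x)

/-- its probability -/
noncomputable def uR (R : ℕ) : ℝ :=
  Pr (fun _ => (1 / 2 : ℝ)) (boxE R) (fun F => SE3 R (↑F : Set Edg))

/-! ## the cylinder -/

/-- the zippers of the cylinder -/
def Zn (n : ℕ) : Set ℤ := {j | j % (2 * n : ℕ) = 0}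

/-- connection in the universal cover of the dislocated cylinder -/
def RC (n : ℕ) (G : Set Edg) : ℤ × ℤ → ℤ × ℤ → Prop := RZ (Zn n) Set.univ G

/-- the sector `c` of the tip `0` is connected to another tip -/
def Outw (n : ℕ) (G : Set Edg) (c : ℕ) : Prop :=
  ∃ s : ℤ, s ≠ 0 ∧ ∃ d : ℕ, d < 3 ∧ RC n G (scz n 0 c) (scz n s d)

/-- the leg event -/
def G3 (n : ℕ) (G : Set Edg) : Prop :=
  (∀ c d : ℕ, c < 3 → d < 3 → c ≠ d → ¬ RC n G (scz n 0 c) (scz n 0 d)) ∧
  (∀ c : ℕ, c < 3 → Outw n G c)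

/-- the cluster of the sector `c` stays in the band -/
def Shz (n M : ℕ) (G : Set Edg) (c : ℕ) : Prop :=
  ∀ x : ℤ × ℤ, RC n G (scz n 0 c) x → |x.2| < M

/-- one cluster is enough -/
def One (n M : ℕ) (G : Set Edg) : Prop :=
  ∃ c : ℕ, c < 3 ∧ Outw n G c ∧ (∀ d : ℕ, d < 3 → d ≠ c → ¬ RC n G (scz n 0 c) (scz n 0 d)) ∧
    Shz n M G c

/-- the bad alternative: the sectors `a`, `b` are connected to each other and to another tip, the
sector `t` is not connected to them and not connected to another tip -/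
def Alt3 (n : ℕ) (G : Set Edg) : Prop :=
  ∃ t a b : ℕ, t < 3 ∧ a < 3 ∧ b < 3 ∧ t ≠ a ∧ t ≠ b ∧ a ≠ b ∧ RC n G (scz n 0 a) (scz n 0 b) ∧
    ¬ RC n G (scz n 0 t) (scz n 0 a) ∧ ¬ Outw n G t ∧ Outw n G a

end Pool.Agent.W801.OU
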