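import Pool.Agent.W801.OU.Defs

/-!
# The dislocated cylinder: trichotomy and the law of the one-cluster event: the steps
-/

set_option autoImplicit false

namespace Pool.Agent.W801.OU
open H974 H906.Cyl
open MeasureTheory
open Pool.Agent.H863R2.Cyl
open Pool.Agent.H988R2.Perc (Word)
open Pool.Agent.H160R2.ML (nm Good Cn pt)
open Pool.Agent.H160R2.MU (PC)
open Pool.Agent.W801.OL (LegEv2 sec2 Lk2)
open Pool.Agent.W808.HB (Alt coinsH)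

/-- **trichotomy** (words, three legs) -/
def S_TRIw : Prop := ∀ (p r M : ℕ) (w' w : Word), p + r = 3 → 1 ≤ M → Ok w' → Ok w →
  w.length = p + M → w'.length = r + M →
  Good p r w' w ∨ ∃ t a b : ℕ, t < 3 ∧ a < 3 ∧ b < 3 ∧ t ≠ a ∧ t ≠ b ∧ a ≠ b ∧
    Cn p r w' w (pt p r w' w 0 a) (pt p r w' w 0 b) ∧
    ¬ Cn p r w' w (pt p r w' w 0 t) (pt p r w' w 0 a) ∧
    (¬ ∃ s : ℤ, s ≠ 0 ∧ ∃ d : ℕ, d < 3 ∧ Cn p r w' w (pt p r w' w 0 t) (pt p r w' w s d)) ∧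
    (∃ s : ℤ, s ≠ 0 ∧ ∃ d : ℕ, d < 3 ∧ Cn p r w' w (pt p r w' w 0 a) (pt p r w' w s d))

/-- the trichotomy for coins with alternating rows in both halves -/
def S_TRI2 : Prop := ∀ (p r M t t' : ℕ), p + r = 3 → 2 ≤ M → ∀ ω ω' : ℤ × ℕ → Bool,
  Alt (p + M) ω t → Alt (r + M) ω' t' →
  LegEv2 p r M ω ω' ∨ ∃ t a b : ℕ, t < 3 ∧ a < 3 ∧ b < 3 ∧ t ≠ a ∧ t ≠ b ∧ a ≠ b ∧
    Relation.EqvGen (Lk2 p r M ω ω') (sec2 p r M 0 a) (sec2 p r M 0 b) ∧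
    ¬ Relation.EqvGen (Lk2 p r M ω ω') (sec2 p r M 0 t) (sec2 p r M 0 a) ∧
    (¬ ∃ s : ℤ, s ≠ 0 ∧ ∃ d : ℕ, d < 3 ∧
      Relation.EqvGen (Lk2 p r M ω ω') (sec2 p r M 0 t) (sec2 p r M s d)) ∧
    (∃ s : ℤ, s ≠ 0 ∧ ∃ d : ℕ, d < 3 ∧
      Relation.EqvGen (Lk2 p r M ω ω') (sec2 p r M 0 a) (sec2 p r M s d))

/-- **trichotomy** (periodic configurations of a band, all the other edges are closed) -/
def S_TRIc : Prop := ∀ (n M : ℕ), 2 ≤ n → ∀ F : Finset Edg, F ⊆ CE n M →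
  G3 n (per n F) ∨ Alt3 n (per n F)

/-- the one-cluster event of the band implies the leg event of the infinite cylinder -/
def S_ONI : Prop := ∀ (n M : ℕ), 2 ≤ n →
  PC n M (fun F => One n M (per n F)) ≤
    (coinsH.prod coinsH).real {ω | LegEv2 2 1 (2 * n - 2) ω.1 ω.2}

/-- **the law of the one-cluster event** -/
def S_ONE : Prop := ∃ C : ℝ, 0 < C ∧ ∀ (n M : ℕ), 2 ≤ n →
  PC n M (fun F => One n M (per n F)) ≤ C * (n : ℝ) ^ (-(2 / 3 : ℝ))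

/-- **upper bound for the three arm event of the dislocated plane** (the target) -/
def S_UR3 : Prop := ∃ C : ℝ, 0 < C ∧ ∀ R : ℕ, 1 ≤ R → uR R ≤ C * (R : ℝ) ^ (-(2 / 3 : ℝ))

end Pool.Agent.W801.OU
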